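import Pool.Agent.Helper70.OB.Goals

open MeasureTheory Set Metric Filter
open scoped ENNReal Topology
open Pool.Agent.Results.MP_91ee6f_gt
open Pool.Agent.Helper70.MM (om om_zero)
open Pool.Agent.Helper70.OB

namespace Pool.Agent.Helper48.OB

lemma pot_rot {n : ℕ} (τ : Measure (En n)) (hr : Rot τ) (g : En n ≃ₗᵢ[ℝ] En n) (x : En n) :
    potential τ (g x) = potential τ x := by
  unfold potential
  conv_lhs => rw [← hr g]
  have hme : MeasurableEmbedding (g : En n → En n) :=
    g.toHomeomorph.isClosedEmbedding.measurableEmbedding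
  rw [hme.integral_map]
  refine integral_congr_ae (Filter.Eventually.of_forall fun y => ?_)
  show Real.exp (-dist (g x) (g y)) = _
  rw [g.dist_map]

lemma pot_radial {n : ℕ} (τ : Measure (En n)) (hr : Rot τ) {x y : En n} (h : ‖x‖ = ‖y‖) :
    potential τ x = potential τ y := by
  have := pot_rot τ hr ((ℝ ∙ (x - y))ᗮ.reflection) x
  rw [Submodule.reflection_sub h] at this
  exact this.symm

lemma abs_exp_sub {a b : ℝ} (ha : 0 ≤ a) (hb : 0 ≤ b) :
    |Real.exp (-a) - Real.exp (-b)| ≤ |a - b| := by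
  wlog hab : a ≤ b generalizing a b
  · rw [abs_sub_comm, abs_sub_comm a b]
    exact this hb ha (le_of_not_ge hab)
  have h1 : Real.exp (-b) ≤ Real.exp (-a) := Real.exp_le_exp.2 (by linarith)
  have h2 : Real.exp (-a) ≤ 1 := Real.exp_le_one_iff.2 (by linarith)
  have h3 : 1 - (b - a) ≤ Real.exp (-(b - a)) := by
    have := Real.add_one_le_exp (-(b - a)); linarith
  have h4 : Real.exp (-b) = Real.exp (-a) * Real.exp (-(b - a)) := by
    rw [← Real.exp_add]; congr 1; ring
  rw [abs_of_nonneg (by linarith), abs_of_nonpos (by linarith)]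
  have h5 : 0 < Real.exp (-a) := Real.exp_pos _
  rw [h4]
  nlinarith

lemma pot_int {n : ℕ} (τ : Measure (En n)) [IsFiniteMeasure τ] (x : En n) :
    Integrable (fun y => Real.exp (-dist x y)) τ := by
  refine Integrable.of_bound (C := 1) ?_ ?_
  · exact (by fun_prop : Continuous fun y => Real.exp (-dist x y)).aestronglyMeasurable
  · refine Filter.Eventually.of_forall fun y => ?_
    rw [Real.norm_eq_abs, abs_of_pos (Real.exp_pos _)]
    exact Real.exp_le_one_iff.2 (by simp)

lemma pot_lip {n : ℕ} (τ : Measure (En n)) [IsFiniteMeasure τ] (x y : En n) :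
    |potential τ x - potential τ y| ≤ τ.real univ * dist x y := by
  unfold potential
  rw [← integral_sub (pot_int τ x) (pot_int τ y)]
  have h1 : ∀ z : En n, ‖Real.exp (-dist x z) - Real.exp (-dist y z)‖ ≤ dist x y := by
    intro z
    rw [Real.norm_eq_abs]
    refine (abs_exp_sub dist_nonneg dist_nonneg).trans ?_
    exact abs_dist_sub_le x y z
  have := norm_integral_le_of_norm_le_const (μ := τ)
    (f := fun z => Real.exp (-dist x z) - Real.exp (-dist y z)) (C := dist x y)
    (Filter.Eventually.of_forall h1)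
  rw [Real.norm_eq_abs] at this
  linarith [mul_comm (τ.real univ) (dist x y)]

lemma VV_zero {n : ℕ} (τ : Measure (En n)) (e : En n) (r : ℝ) :
    VV τ e 0 r = potential τ (r • e) - 1 := by
  unfold VV cc gj potential
  simp [om_zero]

lemma PP_zero {n k : ℕ} (hk : 2 ≤ k) (τ : Measure (En n)) (e : En n) (r : ℝ) :
    PP k τ e 0 r = ∫ u in (0 : ℝ)..r, u ^ (n - 1) *
      (gj τ e 0 u - ((n : ℝ) - 1) * gj τ e 1 u) := by
  unfold PP cc pj
  rw [if_pos (by omega)]
  simp

/-- Continuity of the flux. -/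
lemma PP_cont {n k : ℕ} (h1 : CHN) (hk : 2 ≤ k) (hn : n + 1 = 2 * k) (τ : Measure (En n))
    [hf : IsFiniteMeasure τ] (hr : Rot τ) (e : En n) (he : ‖e‖ = 1) :
    ContinuousOn (PP k τ e 0) (Ioi 0) := by
  have hi : ∀ r : ℝ, 0 < r → IntervalIntegrable (fun u => u ^ (n - 1) *
      (gj τ e 0 u - ((n : ℝ) - 1) * gj τ e 1 u)) volume 0 r := by
    intro r hr0
    have a0 := (h1 n k hk hn τ hf hr e he 0 (by omega)).2.1 r hr0
    have a1 := (h1 n k hk hn τ hf hr e he 1 (by omega)).2.1 r hr0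
    have := a0.sub (a1.const_mul ((n : ℝ) - 1))
    refine this.congr ?_
    intro u _
    simp only
    ring
  intro r hr0
  have hr0' : 0 < r := hr0
  have h2 : ContinuousOn (fun x => ∫ u in (0 : ℝ)..x, u ^ (n - 1) *
      (gj τ e 0 u - ((n : ℝ) - 1) * gj τ e 1 u)) (uIcc 0 (r + 1)) := by
    apply intervalIntegral.continuousOn_primitive_interval
    rw [uIcc_of_le (by linarith)]
    have := (hi (r + 1) (by linarith))
    rw [intervalIntegrable_iff_integrableOn_Ioc_of_le (by linarith)] at this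
    exact (integrableOn_Icc_iff_integrableOn_Ioc).2 this
  have h3 : PP k τ e 0 = (fun x => ∫ u in (0 : ℝ)..x, u ^ (n - 1) *
      (gj τ e 0 u - ((n : ℝ) - 1) * gj τ e 1 u)) := funext fun x => PP_zero hk τ e x
  rw [h3]
  apply ContinuousAt.continuousWithinAt
  refine (h2 r ?_).continuousAt ?_
  · rw [uIcc_of_le (by linarith)]; exact ⟨hr0'.le, by linarith⟩
  · rw [uIcc_of_le (by linarith)]; exact Icc_mem_nhds hr0' (by linarith)

lemma F_bound {n k : ℕ} (h1 : CHN) (hk : 2 ≤ k) (hn : n + 1 = 2 * k) (τ : Measure (En n))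
    [hf : IsFiniteMeasure τ] (hr : Rot τ) (e : En n) (he : ‖e‖ = 1) :
    ContinuousOn (fun t => PP k τ e 0 t / t ^ (2 * k - 2)) (Ioi 0) ∧
    (∀ r₁ r₂ : ℝ, 0 < r₁ → r₁ ≤ r₂ → 
      ∫ t in r₁..r₂, PP k τ e 0 t / t ^ (2 * k - 2) = VV τ e 0 r₂ - VV τ e 0 r₁) ∧
    ∀ t : ℝ, 0 < t → |PP k τ e 0 t / t ^ (2 * k - 2)| ≤ τ.real univ := by
  have hc : ContinuousOn (fun t => PP k τ e 0 t / t ^ (2 * k - 2)) (Ioi 0) := by
    refine (PP_cont h1 hk hn τ hr e he).div (by fun_prop) ?_
    intro t ht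
    have ht' : 0 < t := ht
    positivity
  have hn1 : n - 1 = 2 * k - 2 := by omega
  have hint : ∀ r₁ r₂ : ℝ, 0 < r₁ → r₁ ≤ r₂ → 
      ∫ t in r₁..r₂, PP k τ e 0 t / t ^ (2 * k - 2) = VV τ e 0 r₂ - VV τ e 0 r₁ := by
    intro r₁ r₂ hr1 hr12
    have := ((h1 n k hk hn τ hf hr e he 0 (by omega)).2.2 r₁ r₂ hr1 hr12).2
    have h5 : cc n 0 = 1 := by simp [cc]
    have h6 : VV τ e 0 r₂ - VV τ e 0 r₁ = gj τ e 0 r₂ - gj τ e 0 r₁ := by
      unfold VV; rw [h5]; ring
    rw [h6, this]
    have h7 : ∀ t, PP k τ e 0 t = pj k τ e 0 t := by intro t; unfold PP; rw [h5]; ring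
    simp only [h7, hn1]
  refine ⟨hc, hint, ?_⟩
  intro t ht
  -- derivative of VV
  have hd : HasDerivAt (VV τ e 0) (PP k τ e 0 t / t ^ (2 * k - 2)) t := by
    have hca : ContinuousAt (fun t => PP k τ e 0 t / t ^ (2 * k - 2)) t :=
      (hc t ht).continuousAt (Ioi_mem_nhds ht)
    have h8 : HasDerivAt (fun x => ∫ s in (t / 2)..x, PP k τ e 0 s / s ^ (2 * k - 2))
        (PP k τ e 0 t / t ^ (2 * k - 2)) t := by
      refine intervalIntegral.integral_hasDerivAt_right ?_ ?_ hca
      · apply ContinuousOn.intervalIntegrable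
        refine hc.mono ?_
        rw [uIcc_of_le (by linarith)]
        intro s hs
        have := hs.1
        show 0 < s
        linarith
      · exact hc.stronglyMeasurableAtFilter isOpen_Ioi _ ht
    have h9 : VV τ e 0 =ᶠ[𝓝 t] fun x => (∫ s in (t / 2)..x, PP k τ e 0 s / s ^ (2 * k - 2)) +
        VV τ e 0 (t / 2) := by
      filter_upwards [Ioi_mem_nhds (show t / 2 < t by linarith)] with x hx
      have hx' : t / 2 < x := hx
      rw [hint (t / 2) x (by linarith) hx'.le]
      ring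
    exact (h8.add_const _).congr_of_eventuallyEq h9
  have hl : ∀ x y : ℝ, |VV τ e 0 x - VV τ e 0 y| ≤ τ.real univ * |x - y| := by
    intro x y
    rw [VV_zero, VV_zero]
    have := pot_lip τ (x • e) (y • e)
    rw [dist_eq_norm, ← sub_smul, norm_smul, he, mul_one, Real.norm_eq_abs] at this
    calc |potential τ (x • e) - 1 - (potential τ (y • e) - 1)| 
        = |potential τ (x • e) - potential τ (y • e)| := by congr 1; ring
      _ ≤ _ := this
  have hnn : 0 ≤ τ.real univ := measureReal_nonneg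
  have hL : LipschitzWith (τ.real univ).toNNReal (VV τ e 0) := by
    apply LipschitzWith.of_dist_le_mul
    intro x y
    rw [Real.dist_eq, Real.dist_eq, Real.coe_toNNReal _ hnn]
    exact hl x y
  have := hd.le_of_lipschitz hL
  rw [Real.norm_eq_abs, Real.coe_toNNReal _ hnn] at this
  exact this

theorem fub (h1 : CHN) (_h2 : MKC) : FUB := by
  intro n k hk hn τ hf hr h0 hsup e he a ha hVa
  have := hf
  obtain ⟨hc, hint, hbd⟩ := F_bound h1 hk hn τ hr e he
  set F : ℝ → ℝ := fun t => PP k τ e 0 t / t ^ (2 * k - 2) with hF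
  -- the double integral
  have hmm : ∀ t, mm τ t = ((n - 1).factorial : ℝ) * ∫ y, (if ‖y‖ < t then (1 : ℝ) else 0) ∂τ := by
    intro t
    unfold mm
    congr 1
    have h3 : (fun y : En n => if ‖y‖ < t then (1 : ℝ) else 0) = (ball (0 : En n) t).indicator 1 := by
      funext y
      by_cases hy : ‖y‖ < t
      · simp [hy]
      · simp [hy]
    rw [h3, integral_indicator_one measurableSet_ball]
  have hFm : AEStronglyMeasurable F (volume.restrict (Ioc 0 a)) :=
    (hc.mono fun t ht => ht.1).aestronglyMeasurable measurableSet_Ioc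
  have hi : Integrable (fun p : ℝ × En n => F p.1 * (if ‖p.2‖ < p.1 then (1 : ℝ) else 0))
      ((volume.restrict (Ioc 0 a)).prod τ) := by
    refine Integrable.of_bound (C := τ.real univ) ?_ ?_
    · refine (hFm.comp_fst).mul ?_
      refine Measurable.aestronglyMeasurable ?_
      refine Measurable.ite ?_ measurable_const measurable_const
      exact measurableSet_lt (by fun_prop) (by fun_prop)
    · have h4 : ∀ᵐ p : ℝ × En n ∂((volume.restrict (Ioc 0 a)).prod τ), 0 < p.1 := by
        have h5 : ∀ᵐ t ∂(volume.restrict (Ioc (0 : ℝ) a)), 0 < t := by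
          filter_upwards [ae_restrict_mem measurableSet_Ioc] with t ht using ht.1
        exact Measure.quasiMeasurePreserving_fst.ae h5
      filter_upwards [h4] with p hp
      rw [norm_mul, Real.norm_eq_abs]
      have h6 := hbd p.1 hp
      have h7 : ‖(if ‖p.2‖ < p.1 then (1 : ℝ) else 0)‖ ≤ 1 := by split_ifs <;> simp
      calc |F p.1| * ‖(if ‖p.2‖ < p.1 then (1 : ℝ) else 0)‖ ≤ τ.real univ * 1 := by
            refine mul_le_mul h6 h7 (norm_nonneg _) measureReal_nonneg
        _ = _ := mul_one _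
  have h8 : ∫ t in (0 : ℝ)..a, F t * mm τ t = ((n - 1).factorial : ℝ) *
      ∫ t in Ioc 0 a, ∫ y, F t * (if ‖y‖ < t then (1 : ℝ) else 0) ∂τ := by
    rw [intervalIntegral.integral_of_le ha.le, ← integral_const_mul]
    refine integral_congr_ae (Filter.Eventually.of_forall fun t => ?_)
    simp only
    rw [integral_const_mul, hmm]
    ring
  show ∫ t in (0 : ℝ)..a, F t * mm τ t = 0
  rw [h8, integral_integral_swap hi]
  have h9 : ∀ᵐ y ∂τ, ∫ t in Ioc 0 a, F t * (if ‖y‖ < t then (1 : ℝ) else 0) = 0 := by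
    have b1 : ∀ᵐ y ∂τ, y ∈ τ.support := Measure.support_mem_ae
    have b2 : ∀ᵐ y ∂τ, y ≠ 0 := by
      rw [ae_iff]; simpa using h0
    filter_upwards [b1, b2] with y hy hy0
    have hyp : 0 < ‖y‖ := norm_pos_iff.2 hy0
    have hV : VV τ e 0 ‖y‖ = 0 := by
      rw [VV_zero, pot_radial τ hr (y := y) (by rw [norm_smul, he]; simp), hsup y hy]
      ring
    have h10 : ∀ t, F t * (if ‖y‖ < t then (1 : ℝ) else 0) = (Ioi ‖y‖).indicator F t := by
      intro t
      by_cases ht : ‖y‖ < t
      · simp [ht]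
      · simp [ht]
    simp only [h10]
    rw [setIntegral_indicator measurableSet_Ioi]
    by_cases hya : ‖y‖ < a
    · have h11 : Ioc 0 a ∩ Ioi ‖y‖ = Ioc ‖y‖ a := by
        ext t; simp only [mem_inter_iff, mem_Ioc, mem_Ioi]
        constructor
        · rintro ⟨⟨_, h2⟩, h3⟩; exact ⟨h3, h2⟩
        · rintro ⟨h2, h3⟩; exact ⟨⟨hyp.trans h2, h3⟩, h2⟩
      rw [h11, ← intervalIntegral.integral_of_le hya.le, hint _ _ hyp hya.le, hVa, hV]
      ring
    · have h11 : Ioc 0 a ∩ Ioi ‖y‖ = ∅ := by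
        ext t; simp only [mem_inter_iff, mem_Ioc, mem_Ioi, mem_empty_iff_false, iff_false]
        rintro ⟨⟨_, h2⟩, h3⟩; exact hya (h3.trans_le h2)
      rw [h11]; simp
  rw [integral_congr_ae h9]
  simp

end Pool.Agent.Helper48.OB
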