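import Pool.Agent.Helper73.OB.GoalsA

/-!
Project OB, packet MEAS: measurability of the codings.
-/

open MeasureTheory
open scoped ENNReal

namespace Pool.Agent.Helper48.OB

open Pool.Agent.Helper73.OB

section basic

variable {S X : Type} [MeasurableSpace X]

theorem run_meas {f : S → X → X} (hf : ∀ s, Measurable (f s)) (w : List S) :
    Measurable (run f w) := by
  induction w with
  | nil => exact measurable_id
  | cons a w ih => exact ih.comp (hf a)

theorem sInf_meas (P : ℕ → X → Prop) (h : ∀ k, MeasurableSet {x | P k x}) :
    Measurable fun x => sInf {k | P k x} := by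
  refine measurable_to_countable' fun n => ?_
  have h1 : (fun x => sInf {k | P k x}) ⁻¹' {n} =
      ({x | P n x} ∩ ⋂ m : Fin n, {x | P m x}ᶜ) ∪
        (if n = 0 then ⋂ k, {x | P k x}ᶜ else ∅) := by
    ext x
    simp only [Set.mem_preimage, Set.mem_singleton_iff, Set.mem_union, Set.mem_inter_iff,
      Set.mem_iInter, Set.mem_compl_iff, Set.mem_ofPred_eq]
    by_cases hne : {k | P k x}.Nonempty
    · have h2 : ¬ x ∈ (if n = 0 then ⋂ k, {x | P k x}ᶜ else (∅ : Set X)) := by
        split_ifs
        · simp only [Set.mem_iInter, Set.mem_compl_iff, Set.mem_ofPred_eq]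
          intro h3
          obtain ⟨k, hk⟩ := hne
          exact h3 k hk
        · exact fun h => h
      constructor
      · intro h3
        left
        refine ⟨?_, fun m hm => ?_⟩
        · have := Nat.sInf_mem hne
          rw [h3] at this
          exact this
        · have h4 : (m : ℕ) < sInf {k | P k x} := by
            rw [h3]
            exact m.2
          exact Nat.notMem_of_lt_sInf h4 hm
      · rintro (⟨h3, h4⟩ | h3)
        · refine le_antisymm (Nat.sInf_le h3) ?_
          by_contra hlt
          push Not at hlt
          exact h4 ⟨_, hlt⟩ (Nat.sInf_mem hne)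
        · exact absurd h3 h2
    · rw [Set.not_nonempty_iff_eq_empty] at hne
      rw [hne, Nat.sInf_empty]
      have h3 : ∀ k, ¬ P k x := fun k hk => by
        have : k ∈ {k | P k x} := hk
        rw [hne] at this
        exact this
      constructor
      · intro h4
        right
        rw [if_pos h4.symm]
        simpa using h3
      · rintro (⟨h4, -⟩ | h4)
        · exact absurd h4 (h3 n)
        · by_contra h5
          rw [if_neg (fun h => h5 h.symm)] at h4
          exact h4
  rw [h1]
  refine MeasurableSet.union ((h n).inter (MeasurableSet.iInter fun m => (h m).compl)) ?_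
  split_ifs
  · exact MeasurableSet.iInter fun k => (h k).compl
  · exact MeasurableSet.empty

/-- Evaluation of a countable family at a measurable index. -/
theorem eval_meas {I Y : Type} [Countable I] [MeasurableSpace I] [MeasurableSingletonClass I]
    [MeasurableSpace Y] {Z : Type} [MeasurableSpace Z] (g : I → Y → Z)
    (hg : ∀ i, Measurable (g i)) (k : X → I) (hk : Measurable k) (y : X → Y)
    (hy : Measurable y) : Measurable fun x => g (k x) (y x) := by
  have h1 : Measurable fun q : I × Y => g q.1 q.2 :=
    measurable_from_prod_countable_right hg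
  exact h1.comp (hk.prodMk hy)

end basic

section blocks

variable {S X : Type} [MeasurableSpace X] {p : Bit → S} {δ : Bit} {f : S → X → X}
  {M : X → Bool} {V : X → unitInterval} {o : X → Bit → Bit}

theorem kfar_meas (hf : ∀ s, Measurable (f s)) (hM : Measurable M) (z : Bit) :
    Measurable fun x => kfar p δ f M x z := by
  refine sInf_meas (fun k x => 1 ≤ k ∧ M (run f (uw p δ k z) x) = true) fun k => ?_
  by_cases hk : 1 ≤ k
  · have h1 : {x | 1 ≤ k ∧ M (run f (uw p δ k z) x) = true} =
        (fun x => M (run f (uw p δ k z) x)) ⁻¹' {true} := by
      ext x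
      simp [hk]
    rw [h1]
    exact (hM.comp (run_meas hf _)) (measurableSet_singleton _)
  · have h1 : {x | 1 ≤ k ∧ M (run f (uw p δ k z) x) = true} = ∅ := by
      ext x
      simp [hk]
    rw [h1]
    exact MeasurableSet.empty

theorem pfar_meas (hf : ∀ s, Measurable (f s)) (hM : Measurable M) (z : Bit) :
    Measurable fun x => pfar p δ f M x z :=
  eval_meas (fun k y => run f (uw p δ k z) y) (fun _ => run_meas hf _) _
    (kfar_meas hf hM z) _ measurable_id

theorem M_set (hM : Measurable M) : MeasurableSet {x | M x = true} :=
  hM (measurableSet_singleton true)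

theorem pnear_meas (hf : ∀ s, Measurable (f s)) (hM : Measurable M) (z : Bit) :
    Measurable fun x => pnear p δ f M x z := by
  unfold pnear
  exact Measurable.ite (M_set hM) measurable_id (pfar_meas hf hM (z + 1))

theorem sfar_meas (hf : ∀ s, Measurable (f s)) (hM : Measurable M) (z : Bit) :
    Measurable fun x => sfar p δ f M x z := by
  unfold sfar
  have h1 : Measurable fun k : ℕ => z + 1 + (k : Bit) * δ := measurable_of_countable _
  exact h1.comp (kfar_meas hf hM z)

theorem snear_meas (hf : ∀ s, Measurable (f s)) (hM : Measurable M) (z : Bit) :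
    Measurable fun x => snear p δ f M x z := by
  unfold snear
  exact Measurable.ite (M_set hM) measurable_const (sfar_meas hf hM (z + 1))

theorem knear_meas (hf : ∀ s, Measurable (f s)) (hM : Measurable M) (z : Bit) :
    Measurable fun x => knear p δ f M x z := by
  unfold knear
  exact Measurable.ite (M_set hM) measurable_const (kfar_meas hf hM (z + 1))

theorem bit_add {a b : X → Bit} (ha : Measurable a) (hb : Measurable b) :
    Measurable fun x => a x + b x := by
  have h1 : Measurable fun q : Bit × Bit => q.1 + q.2 := measurable_of_countable _
  exact h1.comp (ha.prodMk hb)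

theorem o_meas (ho : Measurable o) {y : X → X} (hy : Measurable y) {z : X → Bit}
    (hz : Measurable z) : Measurable fun x => o (y x) (z x) :=
  eval_meas (fun b y => o y b) (fun b => (measurable_pi_apply b).comp ho) _ hz _ hy

theorem bitAt_meas (hf : ∀ s, Measurable (f s)) (hM : Measurable M) (hV : Measurable V)
    (ho : Measurable o) (z : Bit) : Measurable fun x => bitAt p δ f M V o x z := by
  unfold bitAt
  refine Measurable.ite (measurableSet_lt (hV.comp (pfar_meas hf hM z))
    (hV.comp (pnear_meas hf hM z))) ?_ ?_
  · refine bit_add (o_meas ho (pnear_meas hf hM z) (snear_meas hf hM z)) ?_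
    have h1 : Measurable fun k : ℕ => (k : Bit) * (δ + 1) := measurable_of_countable _
    exact h1.comp (knear_meas hf hM z)
  · refine bit_add (bit_add (o_meas ho (pfar_meas hf hM z) (sfar_meas hf hM z)) ?_)
      measurable_const
    have h1 : Measurable fun k : ℕ => ((k : Bit) + 1) * (δ + 1) := measurable_of_countable _
    exact h1.comp (kfar_meas hf hM z)

theorem stores_set (hf : ∀ s, Measurable (f s)) (hM : Measurable M) (hV : Measurable V)
    (z : Bit) : MeasurableSet {x | Stores p δ f M V x z} := by
  have h1 : MeasurableSet {x | V (pfar p δ f M x z) < V x} :=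
    measurableSet_lt (hV.comp (pfar_meas hf hM z)) hV
  exact (M_set hM).inter h1

end blocks

theorem pack_meas : Measurable fun x : Bit × unitInterval => pack x.1 x.2 := by
  unfold pack
  refine Measurable.subtype_mk ?_
  have h1 : Measurable fun b : Bit => (b.val : ℝ) := measurable_of_countable _
  exact ((h1.comp measurable_fst).add (measurable_subtype_coe.comp measurable_snd)).div_const 2

theorem unpack_meas : Measurable unpack := by
  have h1 : unpack = fun q : unitInterval => ((if (q : ℝ) < 1 / 2 then (0 : Bit) else 1),
      Set.projIcc (0 : ℝ) 1 zero_le_one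
        (if (q : ℝ) < 1 / 2 then 2 * (q : ℝ) else 2 * (q : ℝ) - 1)) := by
    funext q
    unfold unpack
    have h0 := q.2.1
    have h2 := q.2.2
    split_ifs with h
    · refine Prod.ext rfl ?_
      rw [Set.projIcc_of_mem zero_le_one (x := 2 * (q : ℝ)) ⟨by linarith, by linarith⟩]
    · push Not at h
      refine Prod.ext rfl ?_
      rw [Set.projIcc_of_mem zero_le_one (x := 2 * (q : ℝ) - 1) ⟨by linarith, by linarith⟩]
  rw [h1]
  have hs : MeasurableSet {q : unitInterval | (q : ℝ) < 1 / 2} :=
    measurableSet_lt measurable_subtype_coe measurable_const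
  refine Measurable.prodMk (Measurable.ite hs measurable_const measurable_const) ?_
  refine continuous_projIcc.measurable.comp (Measurable.ite hs ?_ ?_)
  · exact measurable_subtype_coe.const_mul 2
  · exact (measurable_subtype_coe.const_mul 2).sub_const 1

theorem pack_comp {X : Type} [MeasurableSpace X] {a : X → Bit} {b : X → unitInterval}
    (ha : Measurable a) (hb : Measurable b) : Measurable fun x => pack (a x) (b x) :=
  pack_meas.comp (ha.prodMk hb)

theorem meas : S_MEAS := by
  intro S X _ _ p δ f hf
  refine ⟨?_, ?_, ?_, ?_⟩
  · intro M V o z hM hV ho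
    exact ⟨kfar_meas hf hM z, pfar_meas hf hM z, pnear_meas hf hM z, bitAt_meas hf hM hV ho z⟩
  · intro l hl
    have hM : Measurable fun x => (l x).1 := hl.fst
    have he : Measurable fun x => (l x).2.1 := hl.snd.fst
    have hV : Measurable fun x => (l x).2.2.1 := hl.snd.snd.fst
    have hr : Measurable fun x => (l x).2.2.2.1 := hl.snd.snd.snd.fst
    have ho : Measurable fun x => (l x).2.2.2.2 := hl.snd.snd.snd.snd
    constructor
    · unfold S3
      refine hM.prodMk (Measurable.prodMk ?_ (hV.prodMk hr))
      refine measurable_pi_iff.2 fun d => measurable_pi_iff.2 fun z => ?_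
      by_cases hd : d = δ
      · simp only [hd, if_true]
        exact bitAt_meas hf hM hV ho z
      · simp only [hd, if_false]
        exact Measurable.ite (M_set hM) ((measurable_pi_apply z).comp he)
          (bitAt_meas hf hM hV ho z)
    · unfold E3
      refine hM.prodMk (Measurable.prodMk ?_ (hV.prodMk ?_))
      · exact Measurable.ite (M_set hM) he measurable_const
      · refine measurable_pi_iff.2 fun z => ?_
        exact Measurable.ite (stores_set hf hM hV z)
          (pack_comp ((measurable_pi_apply z).comp ho) ((measurable_pi_apply z).comp hr))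
          ((measurable_pi_apply z).comp hr)
  · intro s hs
    have hM : Measurable fun x => (s x).1 := hs.fst
    have ha : Measurable fun x => (s x).2.1 := hs.snd.fst
    have hV : Measurable fun x => (s x).2.2.1 := hs.snd.snd.fst
    have hr : Measurable fun x => (s x).2.2.2 := hs.snd.snd.snd
    unfold enc
    refine hM.prodMk (Measurable.prodMk ?_ (hV.prodMk ?_))
    · exact Measurable.ite (M_set hM) ((measurable_pi_apply (δ + 1)).comp ha) measurable_const
    · refine measurable_pi_iff.2 fun z => ?_
      exact Measurable.ite (stores_set hf hM hV z)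
        (pack_comp ((measurable_pi_apply z).comp ((measurable_pi_apply δ).comp ha))
          ((measurable_pi_apply z).comp hr))
        ((measurable_pi_apply z).comp hr)
  · intro l hl
    have hM : Measurable fun x => (l x).1 := hl.fst
    have he : Measurable fun x => (l x).2.1 := hl.snd.fst
    have hV : Measurable fun x => (l x).2.2.1 := hl.snd.snd.fst
    have hq : Measurable fun x => (l x).2.2.2 := hl.snd.snd.snd
    have hqz : ∀ z, Measurable fun x => (l x).2.2.2 z := fun z =>
      (measurable_pi_apply z).comp hq
    have ho : Measurable fun x => fun z => (unpack ((l x).2.2.2 z)).1 :=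
      measurable_pi_iff.2 fun z => (unpack_meas.comp (hqz z)).fst
    unfold dec
    refine hM.prodMk (Measurable.prodMk ?_ (hV.prodMk ?_))
    · refine measurable_pi_iff.2 fun d => measurable_pi_iff.2 fun z => ?_
      by_cases hd : d = δ
      · simp only [hd, if_true]
        exact bitAt_meas hf hM hV ho z
      · simp only [hd, if_false]
        exact Measurable.ite (M_set hM) ((measurable_pi_apply z).comp he)
          (bitAt_meas hf hM hV ho z)
    · refine measurable_pi_iff.2 fun z => ?_
      exact Measurable.ite (stores_set hf hM hV z) (unpack_meas.comp (hqz z)).snd (hqz z)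

end Pool.Agent.Helper48.OB
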