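import Pool.Agent.Helper79.OB.GoalsC

/-!
Project OB, packet NEARM: the measure of the complement of `Near`.
-/

open MeasureTheory
open scoped ENNReal

namespace Pool.Agent.Helper48.OB

open Pool.Agent.Helper73.OB Pool.Agent.Helper79.OB

section

variable {S X : Type}

/-- The points from which `Mk` is reached by at most `n` steps. -/
def hit (f : S → X → X) (Mk : Set X) (n : ℕ) : Set X :=
  {x | ∃ w : List S, w.length ≤ n ∧ run f w x ∈ Mk}

theorem hit_zero (f : S → X → X) (Mk : Set X) : hit f Mk 0 = Mk := by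
  ext x
  constructor
  · rintro ⟨w, hw, hx⟩
    have h1 : w = [] := by
      rw [← List.length_eq_zero_iff]
      omega
    rw [h1] at hx
    exact hx
  · intro hx
    exact ⟨[], le_rfl, hx⟩

theorem hit_succ (f : S → X → X) (Mk : Set X) (n : ℕ) :
    hit f Mk (n + 1) ⊆ Mk ∪ ⋃ a, f a ⁻¹' hit f Mk n := by
  rintro x ⟨w, hw, hx⟩
  cases w with
  | nil => exact Or.inl hx
  | cons a w =>
    right
    rw [Set.mem_iUnion]
    refine ⟨a, w, ?_, hx⟩
    rw [List.length_cons] at hw
    omega

theorem hit_meas [Countable S] [MeasurableSpace X] {f : S → X → X} {Mk : Set X}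
    (hf : ∀ w, Measurable (run f w)) (hM : MeasurableSet Mk) (n : ℕ) :
    MeasurableSet (hit f Mk n) := by
  have h1 : hit f Mk n = ⋃ w : List S, ⋃ _ : w.length ≤ n, run f w ⁻¹' Mk := by
    ext x
    simp only [hit, Set.mem_iUnion, Set.mem_preimage]
    constructor
    · rintro ⟨w, hw, hx⟩
      exact ⟨w, hw, hx⟩
    · rintro ⟨w, hw, hx⟩
      exact ⟨w, hw, hx⟩
  rw [h1]
  exact MeasurableSet.iUnion fun w => MeasurableSet.iUnion fun _ => hf w hM

end

theorem th_nearm : S_NEARM := by
  intro S X _ _ β μ _ f g hf Mk G hM hG hr n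
  have hm : ∀ w, Measurable (run f w) := fun w => (hf.run_mp w).measurable
  have key : ∀ k, μ (hit f Mk k) ≤ ((Fintype.card S : ℝ≥0∞) + 1) ^ k * μ Mk := by
    intro k
    induction k with
    | zero => rw [hit_zero, pow_zero, one_mul]
    | succ k ih =>
      have h1 : μ (hit f Mk (k + 1)) ≤ μ Mk + ∑ a, μ (f a ⁻¹' hit f Mk k) := by
        refine (measure_mono (hit_succ f Mk k)).trans ((measure_union_le _ _).trans ?_)
        refine add_le_add le_rfl ?_
        exact measure_iUnion_fintype_le μ _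
      have h2 : ∀ a, μ (f a ⁻¹' hit f Mk k) = μ (hit f Mk k) := fun a =>
        (hf.mp a).measure_preimage (hit_meas hm hM k).nullMeasurableSet
      have h3 : μ Mk ≤ ((Fintype.card S : ℝ≥0∞) + 1) ^ k * μ Mk := by
        calc μ Mk = 1 * μ Mk := (one_mul _).symm
          _ ≤ _ := by
            gcongr
            exact one_le_pow₀ (le_add_self)
      calc μ (hit f Mk (k + 1)) ≤ μ Mk + ∑ a, μ (f a ⁻¹' hit f Mk k) := h1
        _ = μ Mk + (Fintype.card S : ℝ≥0∞) * μ (hit f Mk k) := by
            rw [Finset.sum_congr rfl fun a _ => h2 a, Finset.sum_const, Finset.card_univ,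
              nsmul_eq_mul]
        _ ≤ ((Fintype.card S : ℝ≥0∞) + 1) ^ k * μ Mk +
            (Fintype.card S : ℝ≥0∞) * (((Fintype.card S : ℝ≥0∞) + 1) ^ k * μ Mk) := by
            gcongr
        _ = ((Fintype.card S : ℝ≥0∞) + 1) ^ (k + 1) * μ Mk := by ring
  have hsub : {x | ¬ Near f g n x} ⊆ (⋃ w : List S, run f w ⁻¹' Gᶜ) ∪ hit f Mk (n + 1) := by
    intro x hx
    by_contra hcon
    rw [Set.mem_union, not_or, Set.mem_iUnion, not_exists] at hcon
    obtain ⟨h1, h2⟩ := hcon
    apply hx
    intro w hw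
    have h3 : ∀ u : List S, u.length ≤ n + 1 → run f u x ∉ Mk := fun u hu h4 =>
      h2 ⟨u, hu, h4⟩
    have h4 : run f w x ∈ G := by
      by_contra h5
      exact h1 w h5
    refine (hr _ h4 (h3 w (by omega)) fun a => ?_).symm
    have h5 := h3 (w ++ [a]) (by
      rw [List.length_append, List.length_singleton]
      omega)
    rw [run_append] at h5
    exact h5
  have hnull : μ (⋃ w : List S, run f w ⁻¹' Gᶜ) = 0 :=
    measure_iUnion_null fun w => (hf.run_mp w).quasiMeasurePreserving.preimage_null hG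
  calc μ {x | ¬ Near f g n x} ≤ μ ((⋃ w : List S, run f w ⁻¹' Gᶜ) ∪ hit f Mk (n + 1)) :=
        measure_mono hsub
    _ ≤ μ (⋃ w : List S, run f w ⁻¹' Gᶜ) + μ (hit f Mk (n + 1)) := measure_union_le _ _
    _ = μ (hit f Mk (n + 1)) := by rw [hnull, zero_add]
    _ ≤ _ := key (n + 1)

end Pool.Agent.Helper48.OB
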