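import Pool.Agent.Helper6.OB.Goals

/-!
# Project OB, packet WOR: assembly in a world
-/

set_option autoImplicit false

namespace Pool.Agent.Helper48.OB

open Pool.Agent.Helper6.CS
open Pool.Agent.Helper6.OB
open Pool.Agent.Helper41.CS (Vx OOW limW over_nil)

set_option synthInstance.maxSize 1000000000

theorem over_zero {M : Type} [World M] {c : Wd M} (h : Over (0 : M) c) : c = Wd.nil M := by
  refine Wd.eq_nil_of_len ?_
  by_contra h1
  have h2 : (0 : M) < c.len := lt_of_le_of_ne (World.zero_le' _) (Ne.symm h1)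
  exact absurd (h 0 h2) (not_lt.2 (World.zero_le' _))

theorem pat_zero {M : Type} [World M] (b : M) : ∀ (i : ℕ) (c c' : Wd M), Pat (0 : M) b i c c' → c = c'
  | 0, c, c', h => by
    rw [over_zero h.1, over_zero h.2]
  | i + 1, c, c', h => by
    obtain ⟨z, z', e, c₁, c₁', h1, h2, h3, h4, h5, h6, h7⟩ := h
    have h8 := pat_zero b i c₁ c₁' h7
    rw [h1, h2, over_zero h3, over_zero h4, h8]

theorem t_WOR : G_WOR := by
  intro hREC hCS1 hSEQ hstp hBAS hPHS hDT0 hDTS hFUS M _ k a b f hab hf hbf
  rcases eq_or_lt_of_le (World.zero_le' a) with h0 | h0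
  · subst h0
    refine ⟨fun p => p, inferInstance, ⟨fun i => ⟨i, (zero_add i).symm⟩, ?_⟩, ?_⟩
    · intro i j p q hij hp hq
      have hp' : p = 0 + i := hp
      have hq' : q = 0 + j := hq
      rw [hp', hq', zero_add, zero_add]
      exact hij
    · intro i _ c c' hc
      rw [pat_zero b i c c' hc]
  · have key : ∀ k : ℕ, ∃ (H : Wd M → M) (G : M → Wd M × Wd M → Prop), St a b H G ∧
        Det a b f k H G := by
      intro k
      induction k with
      | zero =>
        have h1 : St a b (fun _ => 0) fun _ _ => True := hBAS hCS1 M a b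
        have h2 := (hPHS M a b hab).1 f (fun _ => 0) hf hbf
        obtain ⟨g, hg, h3⟩ := hstp M a b _ _ _ h0 hab h1 h2
        exact ⟨_, _, h3, hDT0 hSEQ M a b f (fun _ => 0) g (fun _ _ => True) hab h3⟩
      | succ k ih =>
        obtain ⟨H, G, h1, hdet⟩ := ih
        have h2 := (hPHS M a b hab).2 H h1.ifn h1.bd
        obtain ⟨g, hg, h3⟩ := hstp M a b _ _ _ h0 hab h1 h2
        exact ⟨_, _, h3, hDTS hSEQ M a b f H g G hab h1.ifn hg k hdet h3⟩
    obtain ⟨H, G, h1, h2⟩ := key k
    exact hFUS hREC M a b f H G h1 k h2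

end Pool.Agent.Helper48.OB
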